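import Mathlib
import Pool.Agent.Helper90.NoTwoMultiplesDefs
import Pool.Agent.Helper90.NTM.Main

/-!
# The exact value of f(n), and of the limit of f(n)/n

f(n) is the largest size of a subset of [1,n] in which no element divides two other elements.
-/

open Finset Filter Topology
open Pool.Agent.Helper90.NoTwoMultiples

namespace Pool.Agent.Results.MP_24d8b2_nt.ExactFormula

/-- With `J = ⌊log₃ t⌋`, `I = ⌊log₂ t⌋` and `b = 1` if `t ≥ 2 * 3 ^ J` and `b = 0` otherwise,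
`G t = J + 1 + ⌊(I + b) / 2⌋ - e`, where `e = 1` if `10/9 * 3 ^ J ≤ t < 4/3 * 3 ^ J`, `I` is even and
`t < 5/4 * 2 ^ I`, and `e = 0` otherwise. -/
def G (t : ℕ) : ℕ :=
  Nat.log 3 t + 1 + (Nat.log 2 t + (if 2 * 3 ^ Nat.log 3 t ≤ t then 1 else 0)) / 2 -
    (if 10 * 3 ^ Nat.log 3 t ≤ 9 * t ∧ 3 * t < 4 * 3 ^ Nat.log 3 t ∧ Nat.log 2 t % 2 = 0 ∧
      4 * t < 5 * 2 ^ Nat.log 2 t then 1 else 0)

/-- the constant `(1/3) * ∑_{t ≥ 1} G(t) / (t (t + 1))` -/
noncomputable def c : ℝ := (1 / 3) * ∑' i : ℕ, (G (i + 1) : ℝ) / (((i : ℝ) + 1) * ((i : ℝ) + 2))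

theorem result :
    (∀ n : ℕ, f n = ∑ a ∈ (Icc 1 n).filter (fun a => Nat.Coprime 6 a), G (n / a)) ∧
    Tendsto (fun n : ℕ => (f n : ℝ) / n) atTop (𝓝 c) ∧
    0.672965651199489347 < c ∧ c < 0.672965651199489348 := by
  have hG : ∀ t, G t = Pool.Agent.Helper90.NTM.G t := by
    intro t
    unfold G Pool.Agent.Helper90.NTM.G Pool.Agent.Helper90.NTM.gg
    rfl
  have hc : c = Pool.Agent.Helper90.NTM.lam := by
    unfold c Pool.Agent.Helper90.NTM.lam
    simp only [hG]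
  have h1 : ∀ n : ℕ, f n = ∑ a ∈ (Icc 1 n).filter (fun a => Nat.Coprime 6 a),
      Pool.Agent.Helper90.NTM.G (n / a) := Pool.Agent.Helper90.NTM.exact
  refine ⟨?_, ?_, ?_, ?_⟩
  · intro n
    simp only [hG]
    exact h1 n
  · rw [hc]
    exact Pool.Agent.Helper90.NTM.limit_of_exact h1
  · rw [hc]; exact Pool.Agent.Helper90.NTM.lam_bounds.1
  · rw [hc]; exact Pool.Agent.Helper90.NTM.lam_bounds.2

end Pool.Agent.Results.MP_24d8b2_nt.ExactFormula
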